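import Pool.Agent.H86.DB.Targets

/-!
# The local part of a complete intersection (row LOC)
-/

set_option autoImplicit false

open Module MvPolynomial

namespace Pool.Agent.H69.DB

open Pool.Agent.H12.Defect Pool.Agent.H15.Defect Pool.Agent.H86.DB

universe u

section

variable {k : Type u} [Field k] {S A : Type u} [CommRing S] [Algebra k S] [CommRing A]
  [Algebra k A]

lemma finrank_quot_comap (φ : S →ₐ[k] A) (hφ : Function.Surjective φ) (Q : Ideal A) :
    finrank k (A ⧸ Q) = finrank k (S ⧸ Q.comap φ) := by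
  have h1 : Function.Surjective ((Ideal.Quotient.mkₐ k Q).comp φ) :=
    (Ideal.Quotient.mkₐ_surjective k Q).comp hφ
  have h2 : RingHom.ker ((Ideal.Quotient.mkₐ k Q).comp φ) = Q.comap φ := by
    ext x
    rw [RingHom.mem_ker, Ideal.mem_comap]
    change Ideal.Quotient.mk Q (φ x) = 0 ↔ _
    exact Ideal.Quotient.eq_zero_iff_mem
  have e := (Ideal.quotientEquivAlgOfEq k h2.symm).trans (Ideal.quotientKerAlgEquivOfSurjective h1)
  exact e.toLinearEquiv.finrank_eq.symm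

lemma finrank_eq_ker (φ : S →ₐ[k] A) (hφ : Function.Surjective φ) :
    finrank k A = finrank k (S ⧸ RingHom.ker φ) :=
  (Ideal.quotientKerAlgEquivOfSurjective hφ).toLinearEquiv.finrank_eq.symm

lemma finrank_quot_map (φ : S →ₐ[k] A) (hφ : Function.Surjective φ) (P : Ideal S) :
    finrank k (A ⧸ P.map φ) = finrank k (S ⧸ (P ⊔ RingHom.ker φ)) := by
  rw [finrank_quot_comap φ hφ, Ideal.comap_map_of_surjective' φ hφ]

lemma finrank_le_of_le {P Q : Ideal S} (h : P ≤ Q) [Module.Finite k (S ⧸ P)] :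
    finrank k (S ⧸ Q) ≤ finrank k (S ⧸ P) :=
  LinearMap.finrank_le_finrank_of_surjective (f := (Ideal.Quotient.factorₐ k h).toLinearMap)
    (Ideal.Quotient.factor_surjective h)

lemma finite_of_le {P Q : Ideal S} (h : P ≤ Q) [Module.Finite k (S ⧸ P)] :
    Module.Finite k (S ⧸ Q) :=
  Module.Finite.of_surjective (Ideal.Quotient.factorₐ k h).toLinearMap
    (Ideal.Quotient.factor_surjective h)

end

/-- a bounded monotone sequence is eventually constant -/
lemma ev_const (a : ℕ → ℕ) (b : ℕ) (hm : ∀ M, a M ≤ a (M + 1)) (hb : ∀ M, a M ≤ b) :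
    ∃ M₁ e : ℕ, ∀ M ≥ M₁, a M = e := by
  have hm' : Monotone a := monotone_nat_of_le_succ hm
  obtain ⟨M₁, hM⟩ : ∃ M₁, ∀ M, a M ≤ a M₁ := by
    by_contra hcon
    push Not at hcon
    have h1 : ∀ n, ∃ M, n ≤ a M := by
      intro n
      induction n with
      | zero => exact ⟨0, Nat.zero_le _⟩
      | succ n ih =>
        obtain ⟨M, h⟩ := ih
        obtain ⟨M', h'⟩ := hcon M
        exact ⟨M', by omega⟩
    obtain ⟨M, h⟩ := h1 (b + 1)
    have := hb M
    omega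
  exact ⟨M₁, a M₁, fun M h => le_antisymm (hM M) (hm' h)⟩

lemma core (hP : T_SPL.{u}) (hG : T_GEN.{u}) {k : Type u} [Field k] {S : Type u} [CommRing S]
    [Algebra k S] (m D N : ℕ) (I : Ideal S) (f : Fin m → S) (hfI : ∀ j, f j ∈ I)
    (hS : ∀ n : ℕ, IsSmoothable k (S ⧸ Ideal.span (Set.range f) ^ (n + 1)) ∧
      finrank k (S ⧸ Ideal.span (Set.range f) ^ (n + 1)) = D * (n + m).choose m)
    (hM : ∀ n : ℕ, Module.Finite k (S ⧸ I ^ n))
    (hN : ∀ n M : ℕ, I ^ (N + n) ≤ Ideal.span (Set.range f) ^ n ⊔ I ^ M) :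
    ∃ e : ℕ, ∀ n : ℕ, Dle k (S ⧸ I ^ (n + 1)) (e * (n + m).choose m) ∧
      e * (n + m).choose m ≤ finrank k (S ⧸ I ^ (N + (n + 1))) := by
  obtain ⟨q, hq⟩ : ∃ q : Ideal S, q = Ideal.span (Set.range f) := ⟨_, rfl⟩
  rw [← hq] at hS hN
  have hqI : q ≤ I := by
    rw [hq, Ideal.span_le]
    rintro _ ⟨j, rfl⟩
    exact hfI j
  -- the quotient by `q`
  have h0 := hS 0
  rw [zero_add, pow_one, zero_add, Nat.choose_self, mul_one] at h0
  have hq1 : finrank k (S ⧸ q) = D := h0.2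
  have hqfin : Module.Finite k (S ⧸ q) := IsSmoothable.finite h0.1
  obtain ⟨M₁, e, he⟩ := ev_const (fun M => finrank k (S ⧸ (q ⊔ I ^ M))) (finrank k (S ⧸ q))
    (fun M => by
      have h1 : Module.Finite k (S ⧸ (q ⊔ I ^ (M + 1))) := finite_of_le (P := q) le_sup_left
      exact finrank_le_of_le (sup_le_sup_left (Ideal.pow_le_pow_right (Nat.le_succ M)) q))
    (fun M => finrank_le_of_le le_sup_left)
  refine ⟨e, fun n => ?_⟩
  obtain ⟨hA1, hA2⟩ := hS n
  have hAfin : Module.Finite k (S ⧸ q ^ (n + 1)) := IsSmoothable.finite hA1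
  -- the projection to `A_n`
  obtain ⟨φ, hφ⟩ : ∃ φ : S →ₐ[k] S ⧸ q ^ (n + 1), φ = Ideal.Quotient.mkₐ k (q ^ (n + 1)) :=
    ⟨_, rfl⟩
  have hφs : Function.Surjective φ := by
    rw [hφ]
    exact Ideal.Quotient.mkₐ_surjective k _
  have hφk : RingHom.ker φ = q ^ (n + 1) := by
    rw [hφ]
    exact Ideal.Quotient.mkₐ_ker k _
  obtain ⟨M₀, hM₀⟩ := hP k (S ⧸ q ^ (n + 1)) (I.map φ) hA1
  obtain ⟨M, hMdef⟩ : ∃ M, M = M₀ + M₁ + (n + 1) := ⟨_, rfl⟩
  obtain ⟨hB, K, hK1, hK2⟩ := hM₀ M (by omega)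
  have heM : finrank k (S ⧸ (q ⊔ I ^ M)) = e := he M (by omega)
  obtain ⟨J, hJ⟩ : ∃ J : Ideal (S ⧸ q ^ (n + 1)), J = (I.map φ) ^ M := ⟨_, rfl⟩
  rw [← hJ] at hB hK1 hK2
  have hJ' : J = (I ^ M).map φ := by rw [hJ, Ideal.map_pow]
  have hqle : q ^ (n + 1) ≤ q := Ideal.pow_le_self (Nat.succ_ne_zero n)
  -- the projection to `B`
  obtain ⟨π, hπ⟩ : ∃ π : S →ₐ[k] (S ⧸ q ^ (n + 1)) ⧸ J, π = (Ideal.Quotient.mkₐ k J).comp φ :=
    ⟨_, rfl⟩
  have hπs : Function.Surjective π := by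
    rw [hπ]
    exact (Ideal.Quotient.mkₐ_surjective k J).comp hφs
  have hπk : RingHom.ker π = I ^ M ⊔ q ^ (n + 1) := by
    have h1 : RingHom.ker π = J.comap φ := by
      ext x
      rw [RingHom.mem_ker, Ideal.mem_comap, hπ]
      change Ideal.Quotient.mk J (φ x) = 0 ↔ _
      exact Ideal.Quotient.eq_zero_iff_mem
    rw [h1, hJ', Ideal.comap_map_of_surjective' φ hφs, hφk]
  -- the projection to the complement
  obtain ⟨ρ, hρ⟩ : ∃ ρ : S →ₐ[k] (S ⧸ q ^ (n + 1)) ⧸ K, ρ = (Ideal.Quotient.mkₐ k K).comp φ :=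
    ⟨_, rfl⟩
  have hρs : Function.Surjective ρ := by
    rw [hρ]
    exact (Ideal.Quotient.mkₐ_surjective k K).comp hφs
  have hρk : RingHom.ker ρ = K.comap φ := by
    ext x
    rw [RingHom.mem_ker, Ideal.mem_comap, hρ]
    change Ideal.Quotient.mk K (φ x) = 0 ↔ _
    exact Ideal.Quotient.eq_zero_iff_mem
  have hKq : q ^ (n + 1) ≤ K.comap φ := by
    intro x hx
    have hx' : x ∈ RingHom.ker φ := hφk.symm ▸ hx
    rw [RingHom.mem_ker] at hx'
    rw [Ideal.mem_comap, hx']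
    exact zero_mem _
  -- dimension modulo `q`
  have hspan : ∀ {B : Type u} [CommRing B] [Algebra k B] (ψ : S →ₐ[k] B),
      Ideal.span (Set.range fun j => ψ (f j)) = q.map ψ := by
    intro B _ _ ψ
    rw [hq, Ideal.map_span]
    congr 1
    rw [← Set.range_comp]
    rfl
  have hmod : finrank k (S ⧸ q) = e + finrank k (S ⧸ (q ⊔ K.comap φ)) := by
    have h1 := hK2 (q.map φ)
    rw [finrank_quot_map φ hφs, hφk, sup_eq_left.2 hqle, hJ', ← Ideal.map_sup,
      finrank_quot_map φ hφs, hφk] at h1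
    have h2 : (I ^ M ⊔ q) ⊔ q ^ (n + 1) = q ⊔ I ^ M := by
      rw [sup_assoc, sup_eq_left.2 hqle, sup_comm]
    have h3 : K ⊔ q.map φ = (q ⊔ K.comap φ).map φ := by
      rw [Ideal.map_sup, Ideal.map_comap_of_surjective φ hφs, sup_comm]
    rw [h2, heM, h3, finrank_quot_map φ hφs, hφk, sup_assoc, sup_eq_left.2 hKq] at h1
    exact h1
  -- the two estimates
  have hC : finrank k ((S ⧸ q ^ (n + 1)) ⧸ J) ≤ e * (n + m).choose m := by
    have hfin : Module.Finite k ((S ⧸ q ^ (n + 1)) ⧸ J) := IsSmoothable.finite hB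
    have h1 := hG k ((S ⧸ q ^ (n + 1)) ⧸ J) m n (fun j => π (f j)) ?_
    · rw [hspan π, finrank_quot_map π hπs, hπk] at h1
      have h2 : q ⊔ (I ^ M ⊔ q ^ (n + 1)) = q ⊔ I ^ M := by
        rw [sup_comm (I ^ M), ← sup_assoc, sup_eq_left.2 hqle]
      rwa [h2, heM] at h1
    · rw [hspan π, ← Ideal.map_pow, Ideal.map_eq_bot_iff_le_ker, hπk]
      exact le_sup_right
  have hD : finrank k ((S ⧸ q ^ (n + 1)) ⧸ K) ≤
      finrank k (S ⧸ (q ⊔ K.comap φ)) * (n + m).choose m := by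
    have hfin : Module.Finite k ((S ⧸ q ^ (n + 1)) ⧸ K) :=
      Module.Finite.of_surjective (Ideal.Quotient.mkₐ k K).toLinearMap
        (Ideal.Quotient.mkₐ_surjective k K)
    have h1 := hG k ((S ⧸ q ^ (n + 1)) ⧸ K) m n (fun j => ρ (f j)) ?_
    · rwa [hspan ρ, finrank_quot_map ρ hρs, hρk] at h1
    · rw [hspan ρ, ← Ideal.map_pow, Ideal.map_eq_bot_iff_le_ker, hρk]
      exact hKq
  have hdim : finrank k ((S ⧸ q ^ (n + 1)) ⧸ J) = e * (n + m).choose m := by
    rw [hA2, ← hq1, hmod, add_mul] at hK1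
    omega
  constructor
  · -- the smoothable scheme
    have h1 : RingHom.ker π ≤ I ^ (n + 1) := by
      rw [hπk]
      exact sup_le (Ideal.pow_le_pow_right (by omega)) (Ideal.pow_right_mono hqI _)
    have h2 : Dle k ((S ⧸ q ^ (n + 1)) ⧸ J) (e * (n + m).choose m) := by
      rw [← hdim]
      exact IsSmoothable.dle hB
    let g : (S ⧸ q ^ (n + 1)) ⧸ J →ₐ[k] S ⧸ I ^ (n + 1) :=
      (Ideal.Quotient.factorₐ k h1).comp
        (Ideal.quotientKerAlgEquivOfSurjective hπs).symm.toAlgHom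
    refine h2.of_surjective g ?_
    exact (Ideal.Quotient.factor_surjective h1).comp
      (Ideal.quotientKerAlgEquivOfSurjective hπs).symm.surjective
  · have h1 : I ^ (N + (n + 1)) ≤ RingHom.ker π := by
      rw [hπk, sup_comm]
      exact hN (n + 1) M
    have h2 : Module.Finite k (S ⧸ I ^ (N + (n + 1))) := hM _
    rw [← hdim, finrank_eq_ker π hπs]
    exact finrank_le_of_le h1

theorem pf_LOC (hM : T_MON.{u}) (hS : T_SMO.{u}) (hP : T_SPL.{u}) (hG : T_GEN.{u}) :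
    T_LOC.{u} := by
  intro k _ _ m R N I f hI hf hfI hN
  exact core hP hG m (R ^ m) N I f hfI (fun n => hS k m R f n hf)
    (fun n => (hM k m I n hI).1) hN

end Pool.Agent.H69.DB
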